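import Pool.Agent.Helper45.PL.IND

/-!
# Project PL, version 7: the level may grow with the twist
-/

set_option autoImplicit false
set_option linter.unusedSectionVars false

namespace Pool.Agent.PRG

open NumberField Filter Topology

variable {k : Type} [Field k] [NumberField k] {ℓ : ℕ}

theorem rare_le45 {P : ℕ → k → Prop} (h : ∀ m, PD.Rare ℓ (P m)) (j : ℕ) :
    PD.Rare ℓ (fun c : k => ∃ m ≤ j, P m c) := by
  induction j with
  | zero =>
    refine PDL.rare_mono45 (h 0) ?_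
    rintro c - ⟨m, hm, hP⟩
    rwa [Nat.le_zero.1 hm] at hP
  | succ j ih =>
    refine PDL.rare_mono45 (PRL.rare_or45 ih (h (j + 1))) ?_
    rintro c - ⟨m, hm, hP⟩
    rcases Nat.lt_or_eq_of_le hm with h1 | rfl
    · exact Or.inl ⟨m, Nat.lt_succ_iff.1 h1, hP⟩
    · exact Or.inr hP

/-- countably many rare properties: almost no `c` has one of the first `M (cond c)` of them, where `M`
tends to infinity -/
theorem rare_diag45 {P : ℕ → k → Prop} (h : ∀ m, PD.Rare ℓ (P m)) :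
    ∃ M : ℕ → ℕ, Monotone M ∧ Tendsto M atTop atTop ∧
      PD.Rare ℓ (fun c : k => ∃ m ≤ M (LN.cond ℓ c), P m c) := by
  classical
  have h1 : ∀ j : ℕ, ∃ A : ℕ, ∀ X : ℕ, A ≤ X → ∀ T : Finset k,
      (∀ c ∈ T, ∀ c' ∈ T, (∃ d : k, c = c' * d ^ ℓ) → c = c') →
      (∀ c ∈ T, c ≠ 0 ∧ LN.cond ℓ c ≤ X ∧ ∃ m ≤ j, P m c) →
      (T.card : ℝ) ≤ 1 / ((j : ℝ) + 1) * (X * Real.log X ^ (((ℓ - 1 : ℕ) : ℝ) - 1)) := by
    intro j
    have h2 := rare_le45 h j (1 / ((j : ℝ) + 1)) (by positivity)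
    obtain ⟨A, hA⟩ := eventually_atTop.1 h2
    exact ⟨A, fun X hX => hA X hX⟩
  choose A hA using h1
  obtain ⟨M, hM⟩ : ∃ M : ℕ → ℕ, M = fun n => Nat.findGreatest (fun j => A j ≤ n) n := ⟨_, rfl⟩
  have hmono : Monotone M := by
    intro n n' hn
    rw [hM]
    exact Nat.findGreatest_mono (fun j hj => le_trans hj hn) hn
  have htend : Tendsto M atTop atTop := by
    rw [tendsto_atTop]
    intro j
    filter_upwards [eventually_ge_atTop (max j (A j))] with n hn
    rw [hM]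
    exact Nat.le_findGreatest (le_trans (le_max_left _ _) hn) (le_trans (le_max_right _ _) hn)
  refine ⟨M, hmono, htend, fun ε hε => ?_⟩
  obtain ⟨j₀, hj₀⟩ := exists_nat_one_div_lt hε
  filter_upwards [eventually_ge_atTop (A 0), htend.eventually_ge_atTop j₀] with X hX0 hXj T hT1 hT2
  have h3 : A (M X) ≤ X := by
    rw [hM]
    exact Nat.findGreatest_spec (P := fun j => A j ≤ X) (Nat.zero_le X) hX0
  have h4 := hA (M X) X h3 T hT1 fun c hc => by
    obtain ⟨g1, g2, m, g3, g4⟩ := hT2 c hc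
    exact ⟨g1, g2, m, g3.trans (hmono g2), g4⟩
  refine h4.trans ?_
  refine mul_le_mul_of_nonneg_right ?_ ?_
  · have h5 : (j₀ : ℝ) ≤ (M X : ℝ) := by exact_mod_cast hXj
    have h6 : 1 / ((M X : ℝ) + 1) ≤ 1 / ((j₀ : ℝ) + 1) :=
      one_div_le_one_div_of_le (by positivity) (by linarith)
    exact h6.trans hj₀.le
  · exact mul_nonneg (Nat.cast_nonneg _) (Real.rpow_nonneg (Real.log_natCast_nonneg X) _)

end Pool.Agent.PRG
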