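import Pool.Agent.Helper59.PLG.Defs
import Pool.Agent.Helper45.PL.OneF

/-!
# Project PL, version 7, block GEN: the tower over a cyclic cover of any curve
-/

set_option autoImplicit false
set_option linter.unusedSectionVars false

namespace Pool.Agent.PRG

open VC IntermediateField NumberField IsDedekindDomain Pool.Agent.SC
open Filter Topology
open Pool.Agent.L (L0 MM)
open Pool.Agent.LN (Geo Act)
open Pool.Agent.M (Moves OverPl inL0)
open Pool.Agent.ML (HasMu BPl)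
open Pool.Agent.TOW (Au AuE)
open Pool.Agent.PDL (YL gal_L0 rare_mono45)
open Pool.Agent.PRL (TT AbE Four FixB L0_le_TT88 yl_le_TT45 moves_below45 over_below45 tOWU)

theorem charU45 {k E U : Type} [Field k] [NumberField k] [Field E] [Field U] [Algebra k E]
    [Algebra E U] : CharZero U :=
  have : CharZero E := charZero_of_injective_algebraMap (algebraMap k E).injective
  charZero_of_injective_algebraMap (algebraMap E U).injective

/-- **BLOCK GEN.** -/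
theorem gEN (hYLV : StmtYLV) (hGE2 : StmtGE2) (hPLF : PRL.StmtPLF) : StmtGEN := by
  intro k K0 E U _ _ _ _ _ _ _ _ _ _ _ _ ℓ h r hℓ hℓ2 hμ geo R hR hF m
  have hcU : CharZero U := charU45 (k := k) (E := E)
  obtain ⟨h1, h2, h3⟩ := hYLV k K0 E U ℓ h r hℓ geo
  have hL := tOWU k K0 E U ℓ h r hℓ geo (m + 1)
  have hB : PD.Rare ℓ (fun c : k => ∃ Φ : (E ≃ₐ[k] E) →* (U ≃+* U), Act (K0 := K0) ℓ r c Φ ∧
      ¬ FixB E K0 ℓ h (YL E K0 ℓ (U := U)) Φ) := by
    refine rare_mono45 (hGE2 k K0 E U ℓ h r hℓ hμ geo R hR) ?_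
    rintro c hc ⟨Φ, A, hno⟩
    refine ⟨Φ, A, ?_⟩
    rintro ⟨b, hb, Q, hbQ, hm⟩
    exact hno ⟨b, Q, hR.br b hb, hbQ, hm⟩
  refine rare_mono45 (hPLF k K0 E U ℓ h r hℓ hℓ2 hμ geo (YL E K0 ℓ (U := U)) h1 h2 h3 hF hB
    (TT E K0 r ℓ (m + 1)) hL.1 (yl_le_TT45 m) hL.2.2) ?_
  rintro c hc ⟨Φ, A, hno⟩
  refine ⟨Φ, A, ?_⟩
  rintro ⟨b, Q, hb, hbQ, hm⟩
  apply hno
  have hle : TT E K0 r ℓ m ≤ TT E K0 r ℓ (m + 1) := fun z hz =>
    IntermediateField.subset_adjoin _ _ (Or.inl hz)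
  have : IsGalois (L0 E K0 (U := U)) U := gal_L0 geo.normal
  have h5 : Algebra.IsAlgebraic (TT E K0 r ℓ m) U := by
    have h6 : Algebra.IsAlgebraic (L0 E K0 (U := U)) U := inferInstance
    let _ : Algebra (L0 E K0 (U := U)) (TT E K0 r ℓ m) :=
      (IntermediateField.inclusion (L0_le_TT88 m)).toRingHom.toAlgebra
    have : IsScalarTower (L0 E K0 (U := U)) (TT E K0 r ℓ m) U :=
      IsScalarTower.of_algebraMap_eq fun _ => rfl
    exact Algebra.IsAlgebraic.tower_top (K := L0 E K0 (U := U)) _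
  obtain ⟨Q₀, hQ₀⟩ := Pool.Agent.TOW.below59 (N := TT E K0 r ℓ m) Q
  refine ⟨b, ?_, Q₀, over_below45 hle hbQ hQ₀, fun g => moves_below45 hle hQ₀ (hm g)⟩
  by_contra hbR
  obtain ⟨σ, hσ⟩ := hR.only c Φ hc A b hb hbR
  exact hσ (moves_below45 (L0_le_TT88 (m + 1)) hbQ (hm σ))

end Pool.Agent.PRG
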