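import Pool.Agent.Helper59.PLG.Four
import Pool.Agent.Helper29.PLG.YLV
import Pool.Agent.Helper28.ML.Z
import Pool.Agent.Helper45.PL.IND

/-!
# Project PL, version 7, block UNQ: the branch point is unique

For all but finitely many classes `c` no action fixes two places of `YL` above different branch
places.
-/

set_option autoImplicit false
set_option linter.unusedSectionVars false

namespace Pool.Agent.PRG

open VC IntermediateField NumberField IsDedekindDomain Pool.Agent.SC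
open Filter Topology
open Pool.Agent.L (L0 MM)
open Pool.Agent.LN (Geo Act)
open Pool.Agent.M (Moves OverPl inL0 moves_comp)
open Pool.Agent.ML (BPl HasMu IsZ)
open Pool.Agent.TOW (Au AuE)
open Pool.Agent.PDL (YL mem_YL L0_le_YL eig_root gal_L0 act_au MM_le_YL r_mem)

section one

variable {k K0 E U : Type} [Field k] [NumberField k] [Field K0] [Field E] [Field U]
  [Algebra k K0] [Algebra k E] [Algebra E U] [Algebra K0 U] [Algebra k U] [IsScalarTower k E U]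
  [IsScalarTower k K0 U] {ℓ : ℕ} {h : K0} {r : U}

/-- an automorphism over `L0` which fixes places of `YL` above two branch places fixes `r` -/
theorem fix_r45 (hℓ : ℓ.Prime) (hμ : HasMu k ℓ) (G : Geo k K0 E U ℓ h r)
    (h3 : 3 ≤ Nat.card {b : Place E (L0 E K0 (U := U)) // BPl ℓ h b})
    {a : U ≃+* U} (ha : AuE E K0 a) {b b' : Place E (L0 E K0 (U := U))} (hb : BPl ℓ h b)
    (hb' : BPl ℓ h b') (hbb : b ≠ b') {Q Q' : Place E (YL E K0 ℓ (U := U))} (hQ : OverPl b Q)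
    (hQ' : OverPl b' Q') (hm : Moves a _ Q Q) (hm' : Moves a _ Q' Q') : a r = r := by
  classical
  have hclE : IsAlgClosed E := G.clE
  have hcE : CharZero E := charZero_of_injective_algebraMap (algebraMap k E).injective
  have hcU : CharZero U := charZero_of_injective_algebraMap (algebraMap k U).injective
  have hgal : IsGalois (L0 E K0 (U := U)) U := gal_L0 G.normal
  have halg : Algebra.IsAlgebraic (L0 E K0 (U := U)) U := inferInstance
  have hr0 : r ≠ 0 := PRL.geo_r0 G hℓ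
  obtain ⟨hL, hM, -⟩ := yLV k K0 E U ℓ h r hℓ G
  have hs : ∀ x ∈ YL E K0 ℓ (U := U), a x ∈ YL E K0 ℓ (U := U) :=
    hL.stab a ha.fixK fun e => ⟨e, ha.fixE e⟩
  have hrY : r ∈ YL E K0 ℓ (U := U) := hM r_mem
  have hfin : Finite {b : Place E (L0 E K0 (U := U)) // BPl ℓ h b} :=
    Nat.finite_of_card_ne_zero (by omega)
  -- a third branch place
  obtain ⟨b₃, hb₃, h1, h2⟩ : ∃ b₃ : Place E (L0 E K0 (U := U)), BPl ℓ h b₃ ∧ b₃ ≠ b ∧ b₃ ≠ b' := by
    by_contra hcon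
    push Not at hcon
    have h5 : (Set.univ : Set {b : Place E (L0 E K0 (U := U)) // BPl ℓ h b}) ⊆
        {⟨b, hb⟩, ⟨b', hb'⟩} := by
      rintro ⟨b₃, hb₃⟩ -
      by_cases h6 : b₃ = b
      · exact Or.inl (Subtype.ext h6)
      · exact Or.inr (Set.mem_singleton_iff.2 (Subtype.ext (hcon b₃ hb₃ h6)))
    have h6 := Set.ncard_le_ncard h5 (Set.toFinite _)
    rw [Set.ncard_univ] at h6
    have h7 := (Set.ncard_insert_le (⟨b, hb⟩ : {b : Place E (L0 E K0 (U := U)) // BPl ℓ h b})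
      {⟨b', hb'⟩})
    rw [Set.ncard_singleton] at h7
    omega
  obtain ⟨z, hz0, f, hf, hf1, hf2, hf3⟩ := ML.z k K0 E U ℓ ℓ h r hℓ.pos hℓ dvd_rfl hμ G b b₃ hb hb₃
    h1.symm
  have hzY : z ∈ YL E K0 ℓ (U := U) := mem_YL (by rw [← hf]; exact f.2)
  have hz : a z = z := inert_fix59 G.ff hℓ.pos L0_le_YL hQ' ha hs hm' hzY hz0 hf
    (hf3 b' hbb.symm h2.symm)
  by_contra hne
  obtain ⟨ζ, hζ, hζr⟩ := eig_root (E := E) hℓ.pos (T := a) hr0 (by rw [G.rpow, ha.fixK])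
  have hζ1 : ζ ≠ 1 := by
    rintro rfl
    apply hne
    rw [hζr, map_one, one_mul]
  have hprim : IsPrimitiveRoot ζ ℓ := by
    have : Fact ℓ.Prime := ⟨hℓ⟩
    rw [IsPrimitiveRoot.iff_orderOf]
    exact orderOf_eq_prime hζ hζ1
  have h5 := ord_of_inert_fix59 G.ff hℓ G.rpow hr0 L0_le_YL hrY hb hQ ha hs hm hprim hζr hzY hz0 hf hz
  have h6 := dvd_sub h5 hf1
  rw [sub_sub_cancel] at h6
  have h7 := Int.le_of_dvd one_pos h6
  have := hℓ.two_le
  omega

/-- two actions which fix the same two places belong to the same class -/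
theorem class_eq45 (hℓ : ℓ.Prime) (hμ : HasMu k ℓ) (G : Geo k K0 E U ℓ h r)
    (h3 : 3 ≤ Nat.card {b : Place E (L0 E K0 (U := U)) // BPl ℓ h b})
    {b b' : Place E (L0 E K0 (U := U))} (hb : BPl ℓ h b)
    (hb' : BPl ℓ h b') (hbb : b ≠ b') {Q Q' : Place E (YL E K0 ℓ (U := U))} (hQ : OverPl b Q)
    (hQ' : OverPl b' Q') {c c' : k} (hc : c ≠ 0) (hc' : c' ≠ 0)
    {Φ Φ' : (E ≃ₐ[k] E) →* (U ≃+* U)} (A : Act (K0 := K0) ℓ r c Φ)
    (A' : Act (K0 := K0) ℓ r c' Φ') (hm : ∀ g, Moves (Φ g) _ Q Q ∧ Moves (Φ g) _ Q' Q')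
    (hm' : ∀ g, Moves (Φ' g) _ Q Q ∧ Moves (Φ' g) _ Q' Q') : ∃ d : k, c = c' * d ^ ℓ := by
  have hclE : IsAlgClosed E := G.clE
  have halg : Algebra.IsAlgebraic k E := G.algE
  have hclo : IsAlgClosure k E := ⟨hclE, halg⟩
  have hnorm : Normal k E := IsAlgClosure.normal k E
  have hgal : IsGalois k E := ⟨⟩
  have hr0 : r ≠ 0 := PRL.geo_r0 G hℓ
  obtain ⟨hL, -, -⟩ := yLV k K0 E U ℓ h r hℓ G
  obtain ⟨d, hd, hd'⟩ := A.tw
  obtain ⟨e, he, he'⟩ := A'.tw
  have hd0 : d ≠ 0 := by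
    rintro rfl
    rw [zero_pow hℓ.ne_zero] at hd
    exact hc ((map_eq_zero _).1 hd.symm)
  have he0 : e ≠ 0 := by
    rintro rfl
    rw [zero_pow hℓ.ne_zero] at he
    exact hc' ((map_eq_zero _).1 he.symm)
  have key : ∀ g : E ≃ₐ[k] E, g (d / e) = d / e := by
    intro g
    have hs : ∀ x ∈ YL E K0 ℓ (U := U), Φ' g x ∈ YL E K0 ℓ (U := U) :=
      hL.stab _ (A'.fixK g) fun e => ⟨g e, A'.const g e⟩
    have ha : AuE E K0 (Φ g⁻¹ * Φ' g) :=
      { fixK := fun x => by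
          show Φ g⁻¹ (Φ' g (algebraMap K0 U x)) = _
          rw [A'.fixK, A.fixK]
        fixE := fun x => by
          show Φ g⁻¹ (Φ' g (algebraMap E U x)) = _
          rw [A'.const, A.const]
          congr 1
          exact g.symm_apply_apply x }
    have h1 := fix_r45 hℓ hμ G h3 ha hb hb' hbb hQ hQ'
      (moves_comp hs (hm' g).1 (hm g⁻¹).1) (moves_comp hs (hm' g).2 (hm g⁻¹).2)
    have h2 : Φ' g r = Φ g r := by
      have h3 : (Φ g * Φ g⁻¹) (Φ' g r) = Φ g r := congrArg (Φ g) h1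
      rw [← map_mul, mul_inv_cancel, map_one] at h3
      exact h3
    have h4 := hd' g
    have h5 := he' g
    rw [h2] at h5
    have hg0 : Φ g r ≠ 0 := (map_ne_zero_iff (Φ g) (Φ g).injective).2 hr0
    have h6 : algebraMap E U (g d * e) = algebraMap E U (d * g e) := by
      have h7 : Φ g r * r * algebraMap E U (g d * e) = Φ g r * r * algebraMap E U (d * g e) := by
        rw [map_mul, map_mul]
        calc Φ g r * r * (algebraMap E U (g d) * algebraMap E U e)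
            = (Φ g r * algebraMap E U (g d)) * (algebraMap E U e * r) := by ring
          _ = (algebraMap E U d * r) * (Φ g r * algebraMap E U (g e)) := by rw [h4, h5]
          _ = _ := by ring
      exact mul_left_cancel₀ (mul_ne_zero hg0 hr0) h7
    have h8 : g d * e = d * g e := (algebraMap E U).injective h6
    have hge : g e ≠ 0 := (map_ne_zero_iff g g.injective).2 he0
    rw [map_div₀, div_eq_div_iff hge he0, h8]
  have hbot : d / e ∈ (⊥ : IntermediateField k E) := (InfiniteGalois.mem_bot_iff_fixed _).2 key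
  obtain ⟨a, ha⟩ := IntermediateField.mem_bot.1 hbot
  refine ⟨a, (algebraMap k E).injective ?_⟩
  rw [map_mul, map_pow, ha, ← hd, ← he, div_pow, mul_div_cancel₀ _ (pow_ne_zero ℓ he0)]

end one

/-- finitely many classes are rare -/
theorem rare_card45 {k : Type} [Field k] [NumberField k] {ℓ : ℕ} (hℓ : ℓ.Prime) {P : k → Prop}
    (C : ℕ) (h : ∀ T : Finset k, (∀ c ∈ T, ∀ c' ∈ T, (∃ d : k, c = c' * d ^ ℓ) → c = c') →
      (∀ c ∈ T, c ≠ 0 ∧ P c) → T.card ≤ C) : PD.Rare ℓ P := by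
  intro ε hε
  filter_upwards [eventually_ge_atTop 3, eventually_ge_atTop ⌈(C : ℝ) / ε⌉₊] with X hX3 hXC T hT hP
  have h1 : (T.card : ℝ) ≤ C := by
    exact_mod_cast h T hT fun c hc => ⟨(hP c hc).1, (hP c hc).2.2⟩
  have h2 : (C : ℝ) / ε ≤ X := (Nat.le_ceil _).trans (by exact_mod_cast hXC)
  have h3 : (1 : ℝ) ≤ Real.log X := by
    rw [← Real.log_exp 1]
    refine Real.log_le_log (Real.exp_pos 1) ?_
    have h4 : (3 : ℝ) ≤ X := by exact_mod_cast hX3
    linarith [Real.exp_one_lt_d9]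
  have h4 : (0 : ℝ) ≤ ((ℓ - 1 : ℕ) : ℝ) - 1 := by
    have h5 : 1 ≤ ℓ - 1 := by
      have := hℓ.two_le
      omega
    have h6 : (1 : ℝ) ≤ ((ℓ - 1 : ℕ) : ℝ) := by exact_mod_cast h5
    linarith
  have h5 : (1 : ℝ) ≤ Real.log X ^ (((ℓ - 1 : ℕ) : ℝ) - 1) := Real.one_le_rpow h3 h4
  have h6 : (C : ℝ) ≤ ε * X := by
    rw [div_le_iff₀ hε] at h2
    linarith
  refine h1.trans (h6.trans ?_)
  refine mul_le_mul_of_nonneg_left ?_ hε.le
  exact le_mul_of_one_le_right (Nat.cast_nonneg X) h5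

/-- BLOCK UNQ. -/
def StmtUNQ : Prop :=
  ∀ (k K0 E U : Type) [Field k] [NumberField k] [Field K0] [Field E] [Field U] [Algebra k K0]
    [Algebra k E] [Algebra E U] [Algebra K0 U] [Algebra k U] [IsScalarTower k E U]
    [IsScalarTower k K0 U] (ℓ : ℕ) (h : K0) (r : U), ℓ.Prime → HasMu k ℓ →
    Geo k K0 E U ℓ h r → 3 ≤ Nat.card {b : Place E (L0 E K0 (U := U)) // BPl ℓ h b} →
    PD.Rare ℓ (fun c : k => ∃ Φ : (E ≃ₐ[k] E) →* (U ≃+* U), Act (K0 := K0) ℓ r c Φ ∧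
      ∃ (b b' : Place E (L0 E K0 (U := U))) (Q Q' : Place E (YL E K0 ℓ (U := U))), BPl ℓ h b ∧
        BPl ℓ h b' ∧ b ≠ b' ∧ OverPl b Q ∧ OverPl b' Q' ∧
        ∀ g : E ≃ₐ[k] E, Moves (Φ g) _ Q Q ∧ Moves (Φ g) _ Q' Q')

/-- **BLOCK UNQ.** -/
theorem uNQ : StmtUNQ := by
  intro k K0 E U _ _ _ _ _ _ _ _ _ _ _ _ ℓ h r hℓ hμ G h3
  classical
  obtain ⟨hL, hM, -⟩ := yLV k K0 E U ℓ h r hℓ G
  have hX := PRL.pXL k K0 E U ℓ h r hℓ G (YL E K0 ℓ) hL hM
  have hS : {Q : Place E (YL E K0 ℓ (U := U)) | ∃ b : Place E (L0 E K0 (U := U)), BPl ℓ h b ∧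
      OverPl b Q}.Finite := by
    refine Set.Finite.subset (Set.Finite.biUnion (PRL.bpl_fin G hℓ)
      fun b hb => (hX.2 b hb).2.1) ?_
    rintro Q ⟨b, hb, hQ⟩
    exact Set.mem_biUnion hb hQ
  obtain ⟨S, hSdef⟩ : ∃ S : Finset (Place E (YL E K0 ℓ (U := U))), S = hS.toFinset := ⟨_, rfl⟩
  refine rare_card45 hℓ ((S ×ˢ S).card) fun T hT hP => ?_
  choose Φ hΦ b b' Q Q' hb hb' hbb hQ hQ' hm using fun c hc => (hP c hc).2
  rw [← Finset.card_attach]
  refine Finset.card_le_card_of_injOn (fun c => (Q c.1 c.2, Q' c.1 c.2)) ?_ ?_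
  · rintro ⟨c, hc⟩ -
    rw [Finset.mem_coe, Finset.mem_product, hSdef, Set.Finite.mem_toFinset, Set.Finite.mem_toFinset]
    exact ⟨⟨b c hc, hb c hc, hQ c hc⟩, ⟨b' c hc, hb' c hc, hQ' c hc⟩⟩
  · rintro ⟨c, hc⟩ - ⟨c', hc'⟩ - heq
    have h1 : Q c hc = Q c' hc' := congrArg Prod.fst heq
    have h2 : Q' c hc = Q' c' hc' := congrArg Prod.snd heq
    refine Subtype.ext (hT c hc c' hc' (class_eq45 hℓ hμ G h3 (hb c hc) (hb' c hc) (hbb c hc)
      (hQ c hc) (hQ' c hc) (hP c hc).1 (hP c' hc').1 (hΦ c hc) (hΦ c' hc') (hm c hc) ?_))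
    intro g
    rw [h1, h2]
    exact hm c' hc' g

end Pool.Agent.PRG
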