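import Pool.Agent.Helper45.PLG.UNQ
import Pool.Agent.Helper90.PLG.RSG
import Pool.Agent.Helper20.PL.TRG3

/-!
# Project PL, version 7: uniqueness of the branch point, absolute form
-/

set_option autoImplicit false
set_option linter.unusedSectionVars false

namespace Pool.Agent.PRG

open VC IntermediateField NumberField IsDedekindDomain Pool.Agent.SC Pool.Agent.Helper91.Sect
open Filter Topology
open Pool.Agent.L (L0 MM)
open Pool.Agent.LN (Geo Act GoodCurve)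
open Pool.Agent.M (Moves OverPl inL0)
open Pool.Agent.ML (BPl HasMu GBr trE h_ne_zero dvd_iff)
open Pool.Agent.PDL (YL)
open Pool.Agent.PL90 (gam90)
open Pool.Agent.MP (jj)

section

variable {k K0 E U : Type} [Field k] [NumberField k] [Field K0] [Field E] [Field U]
  [Algebra k K0] [Algebra k E] [Algebra E U] [Algebra K0 U] [Algebra k U] [IsScalarTower k E U]
  [IsScalarTower k K0 U] {ℓ : ℕ} {h : K0} {r : U}

/-- a place above a branch point is a branch place -/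
theorem bpl_of_over45 (hℓ : ℓ.Prime) (geo : Geo k K0 E U ℓ h r) {c : k}
    {Φ : (E ≃ₐ[k] E) →* (U ≃+* U)} (A : Act (K0 := K0) ℓ r c Φ)
    {P : ValuationSubring K0} (ram : ∀ z : K0, P.valuation h ≠ P.valuation z ^ ℓ)
    {b : Place E (L0 E K0 (U := U))} (hb : ∀ x : K0, x ∈ P ↔ inL0 x ∈ b.ring) : BPl ℓ h b := by
  have hcl : IsAlgClosed E := geo.clE
  have halg : Algebra.IsAlgebraic k E := geo.algE
  have hch : CharZero E := charZero_of_injective_algebraMap (algebraMap k E).injective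
  have hgal : IsGalois k E := by
    have h1 : IsAlgClosure k E := ⟨hcl, halg⟩
    exact ⟨⟩
  have hh0 := h_ne_zero hℓ.two_le geo
  have hP : b.ring.comap (jj E K0 U) = P := by
    ext x
    rw [ValuationSubring.mem_comap, hb]
    rfl
  intro hd
  obtain ⟨z, hz⟩ := (dvd_iff geo.ff hh0 (ML.toL A) geo.normal b hℓ.pos).1 hd
  rw [hP] at hz
  exact ram z hz

theorem card_bpl45 (hℓ : ℓ.Prime) (geo : Geo k K0 E U ℓ h r) {c : k}
    {Φ : (E ≃ₐ[k] E) →* (U ≃+* U)} (A : Act (K0 := K0) ℓ r c Φ) :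
    Nat.card {b : Place E (L0 E K0 (U := U)) // BPl ℓ h b} =
      Nat.card (GBr k (AlgebraicClosure k) ℓ h) := by
  have hcl : IsAlgClosed E := geo.clE
  have halg : Algebra.IsAlgebraic k E := geo.algE
  have hac : IsAlgClosure k E := ⟨hcl, halg⟩
  obtain ⟨γ, -, -⟩ := gam90 hℓ geo A
  rw [Nat.card_congr γ]
  exact Nat.card_congr (trE (n := ℓ) (h := h) (IsAlgClosure.equiv k E (AlgebraicClosure k)))

end

/-- For 0% of the `c` some section agrees with two different closed branch points. -/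
theorem uniqG' (k K0 : Type) [Field k] [NumberField k] [Field K0] [Algebra k K0] (ℓ : ℕ) (h : K0)
    (hℓ : ℓ.Prime) (hμ : HasMu k ℓ) (hg : GoodCurve k ℓ h)
    (h3 : 3 ≤ Nat.card (GBr k (AlgebraicClosure k) ℓ h)) :
    PD.Rare ℓ (fun c : k => ∃ (K : Type) (_ : Field K) (_ : Algebra k K) (_ : Algebra K0 K)
      (_ : IsScalarTower k K0 K) (y : K), y ^ ℓ = algebraMap k K c * algebraMap K0 K h ∧
      ∃ s : GaloisSection k K, ∃ b b' : GBr k (AlgebraicClosure k) ℓ h, b.P ≠ b'.P ∧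
        AgrG s (YG k K0 y ℓ) b.P ∧ AgrG s (YG k K0 y ℓ) b'.P) := by
  obtain ⟨E, U, i1, i2, i3, i4, i5, i6, i7, i8, r, geo, hTr⟩ := tRG2 k K0 ℓ h hℓ hg
  by_cases hA : ∃ (c₀ : k) (Φ₀ : (E ≃ₐ[k] E) →* (U ≃+* U)), c₀ ≠ 0 ∧ Act (K0 := K0) ℓ r c₀ Φ₀
  · obtain ⟨c₀, Φ₀, hc₀, A₀⟩ := hA
    refine PDL.rare_mono45 (uNQ k K0 E U ℓ h r hℓ hμ geo (by rw [card_bpl45 hℓ geo A₀]; exact h3)) ?_
    rintro c hc ⟨K, j1, j2, j3, j4, y, hy, s, b, b', hbb, h5, h6⟩
    obtain ⟨Φ, A, -, -, hconv⟩ := hTr c hc K y hy s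
    have hnt : ∀ b : GBr k (AlgebraicClosure k) ℓ h, b.P ≠ ⊤ := by
      intro b hb
      apply b.ram 1
      have h7 : b.P.valuation h = 1 := by
        have hh0 : h ≠ 0 := h_ne_zero hℓ.two_le geo
        refine le_antisymm ?_ ?_
        · rw [ValuationSubring.valuation_le_one_iff, hb]
          trivial
        · have h8 : b.P.valuation h⁻¹ ≤ 1 := by
            rw [ValuationSubring.valuation_le_one_iff, hb]
            trivial
          rw [map_inv₀] at h8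
          exact (inv_le_one₀ (zero_lt_iff.2 ((Valuation.ne_zero_iff _).2 hh0))).1 h8
      rw [h7, map_one, one_pow]
    obtain ⟨β, Q, hQ, hβ, hm⟩ := hconv b.P (hnt b) h5
    obtain ⟨β', Q', hQ', hβ', hm'⟩ := hconv b'.P (hnt b') h6
    refine ⟨Φ, A, β, β', Q, Q', bpl_of_over45 hℓ geo A b.ram hβ, bpl_of_over45 hℓ geo A b'.ram hβ',
      ?_, hQ, hQ', fun g => ⟨hm g, hm' g⟩⟩
    rintro rfl
    apply hbb
    ext x
    rw [hβ, hβ']
  · refine PDL.rare_mono45 (PRL.rare_false45 (k := k) (ℓ := ℓ)) ?_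
    rintro c hc ⟨K, j1, j2, j3, j4, y, hy, s, -⟩
    obtain ⟨Φ, A, -⟩ := hTr c hc K y hy s
    exact hA ⟨c, Φ, hc, A⟩

/-- For 0% of the `c` some section agrees with two different rational branch points. -/
theorem uniqG (k K0 : Type) [Field k] [NumberField k] [Field K0] [Algebra k K0] (ℓ : ℕ) (h : K0)
    (hℓ : ℓ.Prime) (hμ : HasMu k ℓ) (hg : GoodCurve k ℓ h)
    (h3 : 3 ≤ Nat.card (GBr k (AlgebraicClosure k) ℓ h)) :
    PD.Rare ℓ (fun c : k => ∃ (K : Type) (_ : Field K) (_ : Algebra k K) (_ : Algebra K0 K)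
      (_ : IsScalarTower k K0 K) (y : K), y ^ ℓ = algebraMap k K c * algebraMap K0 K h ∧
      ∃ s : GaloisSection k K, ∃ b b' : GBr k (AlgebraicClosure k) ℓ h, RatG b ∧ RatG b' ∧
        b.P ≠ b'.P ∧ AgrG s (YG k K0 y ℓ) b.P ∧ AgrG s (YG k K0 y ℓ) b'.P) := by
  refine PDL.rare_mono45 (uniqG' k K0 ℓ h hℓ hμ hg h3) ?_
  rintro c - ⟨K, j1, j2, j3, j4, y, hy, s, b, b', -, -, h5⟩
  exact ⟨K, j1, j2, j3, j4, y, hy, s, b, b', h5⟩

end Pool.Agent.PRG
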